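import Mathlib
import Pool.Agent.H319R2.LeighBridge
import Pool.Agent.J6H80.LRec.Law

set_option autoImplicit false

/-!
# Leigh's Markov chain along linear recurrences and other eventually analytic sequences

Let `C` be a finite closed communicating class of Leigh's chain of a generalised Collatz map `T` modulo
`d`, with the number `Λ = Λ_C > 1 / d`, and `u` ANY solution of a linear recurrence with constant integer
coefficients that converges `p`-adically along no arithmetic progression, for every prime `p ∣ d`. For all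
integers `b` coprime to `d` and all integers `c`, in every interval of length `Y`, for all but
`K Y ^ (1 - δ)` of the `n` with `b u n + c ∈ S_C` the first `log_d Y` terms of the trajectory of
`b u n + c` are `Λ^j |b u n + c|`, up to a factor `Y ^ ε`. For `Λ ≤ 1 / d` the same holds when
`b u n + c` is at least `n ^ B` for large `n`, with `Λ d^B > 1`.

Method. For some `M` and `c` the `i`-th difference of `u` with step `M` at `n` is divisible by `d ^ (2 i)`
for all `n ≥ c i`. So for every prime `p ∣ d` the sequence `u` is, on every class modulo `M`, close to an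
analytic function on the `p`-adic integers. By Strassmann's bound, in a form for finite levels, the
difference quotients of this function are rarely divisible by high powers of `p`, so that the values `u n`
are spread over the classes modulo powers of `d`, while only `d ^ (N (1 - c'))` classes modulo `d ^ N`
contain elements of `S_C` with an unbalanced trajectory.
-/

namespace Pool.Agent.Results.MP_39d40e_nt.LinearRecurrences

open Pool.Agent.H319R2.Leigh Pool.Agent.Y927 Pool.Agent.J6H80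

/-- For `d ^ j ≤ Y` the term `T^j x` of the trajectory of `x` has absolute value `L ^ j |x|`, up to a
factor between `Y ^ (-ε)` and `Y ^ ε`. -/
def Follows (d : ℕ) (m r : ℤ → ℤ) (L ε Y : ℝ) (x : ℤ) : Prop :=
  ∀ j : ℕ, (d : ℝ) ^ j ≤ Y →
    Y ^ (-ε) * L ^ j * |(x : ℝ)| ≤ |(((T d m r)^[j] x : ℤ) : ℝ)| ∧
    |(((T d m r)^[j] x : ℤ) : ℝ)| ≤ Y ^ ε * L ^ j * |(x : ℝ)|

/-- For some `M ≥ 1` and `c`, for all `i` and all `n ≥ c i`, the `i`-th difference of `u` with step `M` at
`n` is divisible by `d ^ (2 i)`. -/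
def EventuallyAnalytic (d : ℕ) (u : ℕ → ℤ) : Prop :=
  ∃ M c : ℕ, 1 ≤ M ∧ ∀ i n : ℕ, c * i ≤ n → (d : ℤ) ^ (2 * i) ∣ (fwdDiff M)^[i] u n

/-- The sequence `u` converges in the `p`-adic integers along no arithmetic progression: on no arithmetic
progression is it eventually constant modulo every power of `p`. -/
def NowhereConvergent (p : ℕ) (u : ℕ → ℤ) : Prop :=
  ∀ a q : ℕ, 1 ≤ q → ∃ k : ℕ, ∀ x₀ : ℕ, ∃ x, x₀ ≤ x ∧ ¬ (p : ℤ) ^ k ∣ u (a + q * x) - u (a + q * x₀)

theorem not_settles {p : ℕ} {u : ℕ → ℤ} (h : NowhereConvergent p u) {a q : ℕ} (hq : 1 ≤ q) :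
    ¬ LRec.Settles p (fun x => u (a + q * x)) := by
  intro hs
  obtain ⟨k, hk⟩ := h a q hq
  obtain ⟨x0, hx0⟩ := hs k
  obtain ⟨x, hx, hx2⟩ := hk x0
  exact hx2 (hx0 x hx)

theorem evm_iff {d : ℕ} {u : ℕ → ℤ} : EventuallyAnalytic d u ↔ ∃ M c : ℕ, 1 ≤ M ∧ LRec.EvM d M c 0 u := by
  unfold EventuallyAnalytic LRec.EvM
  simp only [zero_add]

theorem common {d : ℕ} {u v : ℕ → ℤ} (hu : EventuallyAnalytic d u) (hv : EventuallyAnalytic d v) :
    ∃ M c : ℕ, 1 ≤ M ∧ LRec.EvM d M c 0 u ∧ LRec.EvM d M c 0 v := by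
  obtain ⟨M1, c1, h1, hu1⟩ := evm_iff.1 hu
  obtain ⟨M2, c2, h2, hv1⟩ := evm_iff.1 hv
  have hu2 := hu1.mul_step M2
  have hv2 := hv1.mul_step M1
  rw [mul_comm M2 M1] at hv2
  exact ⟨M1 * M2, c1 + c2, Nat.mul_pos h1 h2, hu2.mono le_rfl (by simp) (by omega),
    hv2.mono le_rfl (by simp) (by omega)⟩

theorem ea_add {d : ℕ} {u v : ℕ → ℤ} (hu : EventuallyAnalytic d u) (hv : EventuallyAnalytic d v) :
    EventuallyAnalytic d (fun n => u n + v n) := by
  obtain ⟨M, c, hM, h1, h2⟩ := common hu hv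
  exact evm_iff.2 ⟨M, c, hM, h1.add h2⟩

theorem ea_mul {d : ℕ} {u v : ℕ → ℤ} (hu : EventuallyAnalytic d u) (hv : EventuallyAnalytic d v) :
    EventuallyAnalytic d (fun n => u n * v n) := by
  obtain ⟨M, c, hM, h1, h2⟩ := common hu hv
  exact evm_iff.2 ⟨M, c, hM, h1.mul h2⟩

theorem card_le {P : ℕ → Prop} (X : ℕ) {Y B : ℝ} (h : ∀ A : Finset ℕ, A ⊆ Finset.Ioc X (X + ⌊Y⌋₊) →
    (∀ n ∈ A, P n) → (A.card : ℝ) ≤ B) : ({n : ℕ | X < n ∧ (n : ℝ) ≤ X + Y ∧ P n}.ncard : ℝ) ≤ B := by
  classical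
  have hfin : {n : ℕ | X < n ∧ (n : ℝ) ≤ X + Y ∧ P n} ⊆
      ((Finset.Ioc X (X + ⌊Y⌋₊)).filter (fun n : ℕ => P n) : Finset ℕ) := by
    rintro n ⟨h1, h2, h3⟩
    rw [Finset.mem_coe, Finset.mem_filter, Finset.mem_Ioc]
    refine ⟨⟨h1, ?_⟩, h3⟩
    have h4 : (n : ℝ) - X ≤ Y := by linarith
    have h5 : n - X ≤ ⌊Y⌋₊ := by
      apply Nat.le_floor
      rw [Nat.cast_sub h1.le]
      exact h4
    omega
  have h1 := Set.ncard_le_ncard hfin (Finset.finite_toSet _)
  rw [Set.ncard_coe_finset] at h1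
  refine le_trans (by exact_mod_cast h1) (h _ (Finset.filter_subset _ _) ?_)
  intro n hn
  exact (Finset.mem_filter.1 hn).2

section

variable {d : ℕ} {m r b : ℤ → ℤ} {e : ℤ → ℕ} {C : Finset (ℤ × ℕ)} {ρ : ℤ × ℕ → ℝ}

theorem lam_pos (D : Data d m r b e) : 0 < Lam d m C ρ := by
  unfold Lam
  apply Finset.prod_pos
  intro i hi
  rw [Finset.mem_range] at hi
  have h := (gm D).ne i (by positivity) (by exact_mod_cast hi)
  have h2 : ((m (i : ℤ) : ℤ) : ℝ) ≠ 0 := by exact_mod_cast h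
  have hd0 : (0 : ℝ) < d := by
    have : 0 < d := by have := D.two_le; omega
    exact_mod_cast this
  positivity

theorem mu_eq (D : Data d m r b e) (hC : Class d m r e C ρ) :
    GP.mu (gm D) C ρ = Real.log (Lam d m C ρ) := (log_Lam D hC).symm

theorem typ_iff (D : Data d m r b e) (hC : Class d m r e C ρ) (ε Y : ℝ) (x : ℤ) :
    GP.Typ (gm D) (GP.mu (gm D) C ρ) ε Y x ↔ Follows d m r (Lam d m C ρ) ε Y x := by
  unfold GP.Typ Follows
  rw [mu_eq D hC, gm_T]
  have h1 : ∀ j : ℕ, Real.exp (j * Real.log (Lam d m C ρ)) = Lam d m C ρ ^ j := by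
    intro j
    rw [Real.exp_nat_mul, Real.exp_log (lam_pos D)]
  simp only [h1]
  exact Iff.rfl

end

/-- **Main theorem.** Let `T` be a generalised Collatz map modulo `d` and `C` a finite closed communicating
class of its Leigh chain with stationary distribution `ρ`.
(1) Every solution of a linear recurrence with constant integer coefficients is eventually analytic
modulo `d`, and so is `∑ c_k k! (n choose k)` for all integers `c_k`; the eventually analytic sequences are
closed under sums and products.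
(2) If the constant coefficient of the recurrence is coprime to `d` and the solution is constant on no
arithmetic progression, then it converges `p`-adically along no arithmetic progression, for all `p ∣ d`.
(3) Let `u` be eventually analytic modulo `d`, converging `p`-adically along no arithmetic progression for
every prime `p ∣ d`, let `B ≥ 1` with `Λ d^B > 1`, let `n₀` be an integer and `ε > 0`. There are
`δ, K > 0` such that for all integers `b` coprime to `d` and `c`, where `B = 1` or `|b u n + c| ≥ n ^ B`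
for all `n ≥ n₀`, in every interval `(X, X + Y]`, `Y ≥ 1`, at most `K Y ^ (1 - δ)` of the `n` have
`b u n + c ∈ S_C` without the trajectory of `x = b u n + c` following the law `Λ^j |x|` for `log_d Y`
steps. -/
theorem result (d : ℕ) (m r b' : ℤ → ℤ) (e : ℤ → ℕ) (D : Data d m r b' e) (C : Finset (ℤ × ℕ))
    (ρ : ℤ × ℕ → ℝ) (hC : Class d m r e C ρ) :
    (∀ u : ℕ → ℤ, EventuallyAnalytic d u → (∀ p : ℕ, p.Prime → p ∣ d → NowhereConvergent p u) →
      ∀ (B : ℝ) (n₀ : ℕ) (ε : ℝ), 1 ≤ B → 1 < Lam d m C ρ * (d : ℝ) ^ B → 0 < ε →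
        ∃ δ K : ℝ, 0 < δ ∧ 0 < K ∧ ∀ b c : ℤ, IsCoprime b (d : ℤ) →
          (B = 1 ∨ ∀ n : ℕ, n₀ ≤ n → (n : ℝ) ^ B ≤ |((b * u n + c : ℤ) : ℝ)|) →
          ∀ (X : ℕ) (Y : ℝ), 1 ≤ Y →
            ({n : ℕ | X < n ∧ (n : ℝ) ≤ X + Y ∧ b * u n + c ∈ S d C ∧
              ¬ Follows d m r (Lam d m C ρ) ε Y (b * u n + c)}.ncard : ℝ) ≤ K * Y ^ (1 - δ)) ∧
    ((∀ (E : LinearRecurrence ℤ) (u : ℕ → ℤ), E.IsSolution u → EventuallyAnalytic d u) ∧
      (∀ c : ℕ → ℤ, EventuallyAnalytic d
        (fun n => ∑ k ∈ Finset.range (n + 1), c k * k.factorial * (n.choose k : ℤ))) ∧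
      (∀ u v : ℕ → ℤ, EventuallyAnalytic d u → EventuallyAnalytic d v →
        EventuallyAnalytic d (fun n => u n + v n) ∧ EventuallyAnalytic d (fun n => u n * v n)) ∧
      (∀ (E : LinearRecurrence ℤ) (u : ℕ → ℤ), E.IsSolution u →
        (∀ h : 0 < E.order, IsCoprime (E.coeffs ⟨0, h⟩) (d : ℤ)) →
        (∀ a q : ℕ, 1 ≤ q → ∃ x, u (a + q * x) ≠ u a) →
        ∀ p : ℕ, p.Prime → p ∣ d → NowhereConvergent p u)) := by
  classical
  have hd1 : 1 ≤ d := by have := D.two_le; omega
  refine ⟨?_, ?_, ?_, fun u v hu hv => ⟨ea_add hu hv, ea_mul hu hv⟩, ?_⟩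
  · intro u hu hnc B n₀ ε hB hΛ hε
    obtain ⟨M, c, hM, hu1⟩ := evm_iff.1 hu
    have hd0 : (0 : ℝ) < d := by exact_mod_cast hd1
    have hmu : -GP.mu (gm D) C ρ < B * Real.log (gm D).d := by
      have h1 := Real.log_pos hΛ
      rw [Real.log_mul (lam_pos D).ne' (by positivity), Real.log_rpow hd0, ← mu_eq D hC] at h1
      have e : ((gm D).d : ℝ) = d := rfl
      rw [e]
      linarith
    obtain ⟨δ, K, hδ, -, hK, h⟩ := LRec.law (gm_fac D) (gm_cls D hC) (u := u) (M := M) (c := c) hu1 hM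
      (fun p hp hpd a => not_settles (hnc p hp hpd) hM) hB hmu n₀ hε
    refine ⟨δ, K, hδ, hK, fun b c' hb hgr X Y hY => ?_⟩
    apply card_le
    intro A hA hbad
    exact h b c' ⟨hb, hgr⟩ X Y hY A hA (fun n hn => ⟨(hbad n hn).1, fun htyp =>
      (hbad n hn).2 ((typ_iff D hC ε Y _).1 htyp)⟩)
  · intro E u hu
    obtain ⟨M, c, hM, h⟩ := LRec.lrs E hd1
    exact evm_iff.2 ⟨M, c, hM, h u hu⟩
  · intro c
    exact evm_iff.2 ⟨d ^ 2, 0, Nat.one_le_pow _ _ hd1, LRec.binom_analytic c hd1⟩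
  · intro E u hu hcop hmov p hp hpd a q hq
    obtain ⟨M, hM, h⟩ := LRec.lrs_unit E hd1 hcop
    by_contra hcon
    push Not at hcon
    have h1 := LRec.const_of_settles (h u hu) hM hp hpd (a := a) (M' := q) hq hcon
    obtain ⟨x, hx⟩ := hmov a (q * M) (Nat.mul_pos hq hM)
    exact hx (h1 x)

end Pool.Agent.Results.MP_39d40e_nt.LinearRecurrences
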