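import Mathlib
import Pool.Agent.H319R2.LeighBridge
import Pool.Agent.J6H48.LD.B

set_option autoImplicit false

/-!
# Leigh's Markov chain and the integers with restricted digits

Let `C` be a finite closed communicating class of Leigh's chain of a generalised Collatz map `T` modulo
`d`, with the number `Λ = Λ_C`, and let `q ≥ 2` be coprime to `d`. For every position `i` let `D i` be a
set of base `q` digits that contains two digits whose difference is prime to `q` (for example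
`D i = {0, 1}`). Consider the integers `n < q ^ M` whose digit at each position `i < M` lies in `D i`:
such a set can be as sparse as `2 ^ M` elements below `q ^ M`. For all integers `b` coprime to `d` and
all integers `c'`, all but a proportion `K exp (-δ M)` of its elements `n` with `x = b n + c'` in `S_C`
have `T^j x` of size `Λ^j |x|` for all `j ≤ c M`, up to a factor `exp (ε c M)`. So if `Λ < 1` the
trajectory of `x` falls below `|x| ^ (1 - κ)`, and if `Λ > 1` it rises above `|x| ^ (1 + κ)`. The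
constants depend neither on the sets `D i` nor on `b` and `c'`.

Method. Modulo `d ^ N`, `N ≤ c M`, no residue class contains more than `exp (η N) / d ^ N` of the set, with
`η` as small as wanted: cut the positions into `2 ^ (r + 1)` blocks, estimate by Hölder's inequality with
the energies of the blocks, and bound the energy of a block by counting carries. Only
`d ^ (N (1 - c'))` classes modulo `d ^ N` contain elements of `S_C` with an unbalanced trajectory.
-/

namespace Pool.Agent.Results.MP_39d40e_nt.RestrictedDigits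

open Pool.Agent.H319R2.Leigh Pool.Agent.Y927

/-- `S` is a set of base `q` digits and contains two digits whose difference is prime to `q`. -/
def Admissible (q : ℕ) (S : Finset ℕ) : Prop :=
  (∀ a ∈ S, a < q) ∧ ∃ a ∈ S, ∃ b ∈ S, a < b ∧ Nat.Coprime (b - a) q

/-- The integers below `q ^ M` whose base `q` digit at each position `i < M` lies in `D i`. -/
def restricted (q : ℕ) (D : ℕ → Finset ℕ) (M : ℕ) : Set ℕ :=
  {n | n < q ^ M ∧ ∀ i < M, n / q ^ i % q ∈ D i}

/-- For all `j ≤ c M` the term `T^j x` has absolute value `L ^ j |x|`, up to a factor between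
`exp (-ε c M)` and `exp (ε c M)`. -/
def Follows (d : ℕ) (m r : ℤ → ℤ) (L ε c : ℝ) (M : ℕ) (x : ℤ) : Prop := ∀ j : ℕ, (j : ℝ) ≤ c * M →
  Real.exp (-(ε * (c * M))) * L ^ j * |(x : ℝ)| ≤ |(((T d m r)^[j] x : ℤ) : ℝ)| ∧
    |(((T d m r)^[j] x : ℤ) : ℝ)| ≤ Real.exp (ε * (c * M)) * L ^ j * |(x : ℝ)|

/-- The trajectory of `x` falls below `|x| ^ (1 - κ)`. -/
def Falls (d : ℕ) (m r : ℤ → ℤ) (κ : ℝ) (x : ℤ) : Prop :=
  ∃ k : ℕ, |(((T d m r)^[k] x : ℤ) : ℝ)| ≤ |(x : ℝ)| ^ (1 - κ) ∧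
    |(((T d m r)^[k] x : ℤ) : ℝ)| < |(x : ℝ)|

/-- The trajectory of `x` rises above `|x| ^ (1 + κ)`. -/
def Rises (d : ℕ) (m r : ℤ → ℤ) (κ : ℝ) (x : ℤ) : Prop :=
  ∃ k : ℕ, |(x : ℝ)| ^ (1 + κ) ≤ |(((T d m r)^[k] x : ℤ) : ℝ)| ∧
    |(x : ℝ)| < |(((T d m r)^[k] x : ℤ) : ℝ)|

/-! ### proofs -/

open J6H48.RD J6H48.LD

theorem admissible_iff {q : ℕ} {S : Finset ℕ} : Admissible q S ↔ Good q S := by
  unfold Admissible Good
  constructor
  · rintro ⟨h1, h2⟩
    exact ⟨fun a ha => Finset.mem_range.2 (h1 a ha), h2⟩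
  · rintro ⟨h1, h2⟩
    exact ⟨fun a ha => Finset.mem_range.1 (h1 ha), h2⟩

theorem coe_Res (q : ℕ) (D : ℕ → Finset ℕ) (M : ℕ) : restricted q D M = (Res q D M : Set ℕ) := by
  ext n
  rw [Finset.mem_coe, mem_Res]
  rfl

open Classical in
theorem transfer {q : ℕ} {P : ℕ → Prop} {δ K : ℝ} {D : ℕ → Finset ℕ} {M : ℕ}
    (h : ∀ A : Finset ℕ, A ⊆ Res q D M → (∀ n ∈ A, P n) →
      (A.card : ℝ) ≤ K * Real.exp (-(δ * M)) * (Res q D M).card) :
    ({n | n ∈ restricted q D M ∧ P n}.ncard : ℝ) ≤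
      K * Real.exp (-(δ * M)) * (restricted q D M).ncard := by
  have e1 : {n | n ∈ restricted q D M ∧ P n} = (((Res q D M).filter fun n => P n : Finset ℕ) : Set ℕ) := by
    ext n
    rw [Finset.mem_coe, Finset.mem_filter, ← Finset.mem_coe, ← coe_Res]
    rfl
  rw [e1, coe_Res, Set.ncard_coe_finset, Set.ncard_coe_finset]
  exact h _ (Finset.filter_subset _ _) fun n hn => (Finset.mem_filter.1 hn).2

section

variable {d : ℕ} {m r b : ℤ → ℤ} {e : ℤ → ℕ} {C : Finset (ℤ × ℕ)} {ρ : ℤ × ℕ → ℝ}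

theorem lam_pos (D : Data d m r b e) : 0 < Lam d m C ρ := by
  unfold Lam
  apply Finset.prod_pos
  intro i hi
  rw [Finset.mem_range] at hi
  have h := (gm D).ne i (by positivity) (by exact_mod_cast hi)
  have h2 : ((m (i : ℤ) : ℤ) : ℝ) ≠ 0 := by exact_mod_cast h
  have hd0 : (0 : ℝ) < d := by
    have : 0 < d := by have := D.two_le; omega
    exact_mod_cast this
  positivity

theorem mu_eq (D : Data d m r b e) (hC : Class d m r e C ρ) :
    GP.mu (gm D) C ρ = Real.log (Lam d m C ρ) := (log_Lam D hC).symm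

theorem typ_iff (D : Data d m r b e) (hC : Class d m r e C ρ) (ε c : ℝ) (M : ℕ) (x : ℤ) :
    J6H48.LD.Typ (gm D) (GP.mu (gm D) C ρ) ε c M x ↔ Follows d m r (Lam d m C ρ) ε c M x := by
  unfold J6H48.LD.Typ Follows
  rw [mu_eq D hC, gm_T]
  have h1 : ∀ j : ℕ, Real.exp (j * Real.log (Lam d m C ρ)) = Lam d m C ρ ^ j := by
    intro j
    rw [Real.exp_nat_mul, Real.exp_log (lam_pos D)]
  have h2 : ∀ (j : ℕ) (E : ℝ), Lam d m C ρ ^ j * |(x : ℝ)| * E = E * Lam d m C ρ ^ j * |(x : ℝ)| := by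
    intro j E; ring
  simp only [h1, h2]

end

/-- **Main theorem.** Let `T` be a generalised Collatz map modulo `d`, `C` a finite closed communicating
class of its Leigh chain with stationary distribution `ρ`, and `q ≥ 2` coprime to `d`.
(1) For every `ε > 0` there are `c, δ, K > 0` such that for all admissible digit sets `D i`, all integers
`b` coprime to `d`, all integers `c'` and all `M`, at most `K exp (-δ M) |R|` elements `n` of the set `R` of
the `n < q ^ M` with digits in the sets `D i` have `x = b n + c' ∈ S_C` without following the law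
`Λ^j |x|` for all `j ≤ c M`.
(2) If `Λ < 1`, then for every `B` there are `κ, δ, K > 0` such that in the same sense, for
`|b|, |c'| ≤ q ^ (B M)`, the trajectory of `x` falls below `|x| ^ (1 - κ)`.
(3) If `Λ > 1`, it rises above `|x| ^ (1 + κ)`. -/
theorem result (d : ℕ) (m r b' : ℤ → ℤ) (e : ℤ → ℕ) (D' : Data d m r b' e) (C : Finset (ℤ × ℕ))
    (ρ : ℤ × ℕ → ℝ) (hC : Class d m r e C ρ) (q : ℕ) (hq : 2 ≤ q) (hco : Nat.Coprime q d) :
    (∀ ε : ℝ, 0 < ε → ∃ c δ K : ℝ, 0 < c ∧ 0 < δ ∧ 0 < K ∧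
      ∀ D : ℕ → Finset ℕ, (∀ i, Admissible q (D i)) → ∀ b c' : ℤ, IsCoprime b (d : ℤ) → ∀ M : ℕ,
        ({n | n ∈ restricted q D M ∧ b * n + c' ∈ S d C ∧
          ¬ Follows d m r (Lam d m C ρ) ε c M (b * n + c')}.ncard : ℝ) ≤
            K * Real.exp (-(δ * M)) * (restricted q D M).ncard) ∧
    (Lam d m C ρ < 1 → ∀ B : ℕ, ∃ κ δ K : ℝ, 0 < κ ∧ 0 < δ ∧ 0 < K ∧
      ∀ D : ℕ → Finset ℕ, (∀ i, Admissible q (D i)) → ∀ b c' : ℤ, IsCoprime b (d : ℤ) → ∀ M : ℕ,
        |b| ≤ (q : ℤ) ^ (B * M) → |c'| ≤ (q : ℤ) ^ (B * M) →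
          ({n | n ∈ restricted q D M ∧ b * n + c' ∈ S d C ∧ ¬ Falls d m r κ (b * n + c')}.ncard : ℝ) ≤
            K * Real.exp (-(δ * M)) * (restricted q D M).ncard) ∧
    (1 < Lam d m C ρ → ∀ B : ℕ, ∃ κ δ K : ℝ, 0 < κ ∧ 0 < δ ∧ 0 < K ∧
      ∀ D : ℕ → Finset ℕ, (∀ i, Admissible q (D i)) → ∀ b c' : ℤ, IsCoprime b (d : ℤ) → ∀ M : ℕ,
        |b| ≤ (q : ℤ) ^ (B * M) → |c'| ≤ (q : ℤ) ^ (B * M) →
          ({n | n ∈ restricted q D M ∧ b * n + c' ∈ S d C ∧ ¬ Rises d m r κ (b * n + c')}.ncard : ℝ) ≤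
            K * Real.exp (-(δ * M)) * (restricted q D M).ncard) := by
  have hmu := mu_eq D' hC
  have hco' : Nat.Coprime q (gm D').d := hco
  refine ⟨?_, ?_, ?_⟩
  · intro ε hε
    obtain ⟨c, δ, K, hc, hδ, hK, H⟩ := part_one (gm_fac D') (gm_cls D' hC) hε hq hco'
    refine ⟨c, δ, K, hc, hδ, hK, fun D hD b c' hb M => transfer fun A hA hbad => ?_⟩
    refine H D (fun i => admissible_iff.1 (hD i)) b c' hb M A hA fun n hn => ⟨(hbad n hn).1, ?_⟩
    rintro ⟨htyp, -⟩
    exact (hbad n hn).2 ((typ_iff D' hC ε c M _).1 htyp)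
  · intro hΛ B
    have hneg : GP.mu (gm D') C ρ < 0 := by rw [hmu]; exact Real.log_neg (lam_pos D') hΛ
    obtain ⟨κ, δ, K, hκ, hδ, hK, H⟩ := part_two (gm_fac D') (gm_cls D' hC) hneg.ne hq hco' B
    refine ⟨κ, δ, K, hκ, hδ, hK, fun D hD b c' hb M hbM hcM => transfer fun A hA hbad => ?_⟩
    refine H D (fun i => admissible_iff.1 (hD i)) b c' hb M hbM hcM A hA fun n hn =>
      ⟨(hbad n hn).1, ?_⟩
    rintro ⟨k, hk, -⟩
    exact (hbad n hn).2 ⟨k, hk hneg⟩
  · intro hΛ B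
    have hpos : 0 < GP.mu (gm D') C ρ := by rw [hmu]; exact Real.log_pos hΛ
    obtain ⟨κ, δ, K, hκ, hδ, hK, H⟩ := part_two (gm_fac D') (gm_cls D' hC) hpos.ne' hq hco' B
    refine ⟨κ, δ, K, hκ, hδ, hK, fun D hD b c' hb M hbM hcM => transfer fun A hA hbad => ?_⟩
    refine H D (fun i => admissible_iff.1 (hD i)) b c' hb M hbM hcM A hA fun n hn =>
      ⟨(hbad n hn).1, ?_⟩
    rintro ⟨k, -, hk⟩
    exact (hbad n hn).2 ⟨k, hk hpos⟩

end Pool.Agent.Results.MP_39d40e_nt.RestrictedDigits
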