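import Mathlib
import Pool.Agent.H319R2.LeighBridge
import Pool.Agent.J6H87.SX.LC

set_option autoImplicit false

/-!
# Leigh's classes: trajectories with simple residue words cycle

Let `T(x) = (m_i x - r_i) / d` for `x ≡ i mod d` be a generalised Collatz map and let `C` be a finite
closed communicating class of Leigh's chain with a state having at least two successors (all classes
with `Λ_C < 1` are of this kind; the other classes consist of one cycle of states which is run through
deterministically, and for them the statement is false in general: `x ↦ x + 1`). For `x` in `S_C` let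
`D_n(x)` be the denominator, in lowest terms, of the product of the multipliers `m_i / d` of the first `n`
steps; `D_n(x) = d ^ n` if `gcd(m_i, d) = 1` for all `i`, and in general `D_n(x)` grows exponentially.
For all `s` and `η > 0` there is `ε > 0` such that: if the word of the residues modulo `d` of the first
`n` terms of the trajectory of `x` is a concatenation of `s` words each of which has a period at most
`ε n`, and if `n` is large and `|x| ^ (1 + η) ≤ D_n(x)`, then the trajectory of `x` enters, within these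
`n` steps, a cycle with at most `ε n` elements. In particular, the residue word of a divergent trajectory
has no beginnings of this kind with `n → ∞`, `s` fixed and periods `o(n)`.

Proof. The composition of the branches along a power `w ^ k` of a short word `w` is `q ↦ ξ + U (q - ξ)`,
where the height of the fixed point `ξ` of `w` is small and `U` is a quotient of products of the `m_i` by
powers of `d`. So `d ^ n T ^ n x = V x + ∑ κ_j V_j` with `S`-units `V`, `V_j` and numbers `κ_j` of small
height; the quotient of two of the `V_j` has a denominator which is exponential in the distance of the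
cuts, since a trajectory in `S_C` passes through a state with two successors in every time interval of
bounded length. The subspace theorem (with moving coefficients, over the field of germs of rational
numbers of small height along an ultrafilter) is used three times: `V x` is a combination of the `V_j`
with coefficients of small height; these coefficients cancel the `κ_j` except for the last one; and the
last one vanishes. So the trajectory contains one of the fixed points.
-/

open Finset

namespace Pool.Agent.Results.MP_39d40e_nt.SimpleResidueWords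

open Pool.Agent.H319R2.Leigh (T Data Class Lam S)

/-- `D_n(x)`: the denominator, in lowest terms, of the product over `j < n` of the fractions `m_i / d`,
where `i` is the residue of `T^j x` modulo `d`. -/
def Den (d : ℕ) (m r : ℤ → ℤ) (x : ℤ) (n : ℕ) : ℕ :=
  (∏ j ∈ range n, (m ((T d m r)^[j] x % d) : ℚ) / d).den

/-- The factor `w a, w (a+1), ..., w (b-1)` of the sequence `w` has period `π`. -/
def HasPeriod (w : ℕ → ℤ) (π a b : ℕ) : Prop := ∀ j, a ≤ j → j + π < b → w (j + π) = w j

/-- The word `w 0, w 1, ..., w (n-1)` is a concatenation of `s` words (cut at `0 = t 0 ≤ t 1 ≤ ... ≤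
t s = n`), each of which has some period `π` with `1 ≤ π ≤ ℓ`. -/
def Splits (w : ℕ → ℤ) (ℓ s n : ℕ) : Prop :=
  ∃ t : ℕ → ℕ, t 0 = 0 ∧ t s = n ∧ (∀ i < s, t i ≤ t (i + 1)) ∧
    ∀ i < s, ∃ π, 1 ≤ π ∧ π ≤ ℓ ∧ HasPeriod w π (t i) (t (i + 1))

/-- the two ways to write the denominator -/
theorem dn_eq (d : ℕ) (m r : ℤ → ℤ) (x : ℤ) (n : ℕ) :
    Pool.Agent.J6H87.SX.dn d (fun i => m (i % d)) (fun i => (T d m r)^[i] x % d) 0 n =
      Den d m r x n := by
  unfold Pool.Agent.J6H87.SX.dn Den
  congr 1
  induction n with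
  | zero => simp [Pool.Agent.J6H87.SX.mu]
  | succ n ih =>
    rw [prod_range_succ, ← ih, Pool.Agent.J6H87.SX.mu]
    simp only [Int.emod_emod_of_dvd, dvd_refl, zero_add]
    push_cast
    rw [pow_succ, div_mul_div_comm]
    ring

/-- Let `C` be a finite closed communicating class of Leigh's chain with `Λ_C < 1` or with a state
having at least two successors. (0) For some `κ > 0` and `lam > 1`, `D_n(x) ≥ κ lam^n` for all `x` in
`S_C` and all `n`. (1) For all `s` and `η > 0` there are `ε > 0` and `X` such that for every `x` in `S_C`,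
every `n ≥ X` with `|x| ^ (1 + η) ≤ D_n(x)` and every `ℓ ≤ ε n`: if the word of the residues modulo `d`
of the first `n` terms of the trajectory of `x` is a concatenation of `s` words each having a period at
most `ℓ`, then `T ^ (j + π) x = T ^ j x` for some `1 ≤ π ≤ ℓ` and `j ≤ n - π`. (2) If the trajectory of `x`
in `S_C` does not cycle then for every `s` there are `ε > 0` and `X` such that for no `n ≥ X` the word of
the residues of the first `n` terms is a concatenation of `s` words each having a period at most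
`ε n`. -/
theorem result (d : ℕ) (m r b : ℤ → ℤ) (e : ℤ → ℕ) (C : Finset (ℤ × ℕ)) (ρ : ℤ × ℕ → ℝ)
    (D : Data d m r b e) (hC : Class d m r e C ρ)
    (hbr : Lam d m C ρ < 1 ∨ ∃ B ∈ C, ¬ d ∣ B.2 * e (B.1 % d)) :
    (∃ κ lam : ℝ, 0 < κ ∧ 1 < lam ∧ ∀ x ∈ S d C, ∀ n : ℕ, κ * lam ^ n ≤ Den d m r x n) ∧
    (∀ (s : ℕ) (η : ℝ), 0 < η → ∃ ε : ℝ, 0 < ε ∧ ∃ X : ℕ, ∀ x ∈ S d C, ∀ n ℓ : ℕ, X ≤ n →
      |(x : ℝ)| ^ (1 + η) ≤ Den d m r x n → (ℓ : ℝ) ≤ ε * n →
      Splits (fun i => (T d m r)^[i] x % d) ℓ s n →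
      ∃ j π, 1 ≤ π ∧ π ≤ ℓ ∧ j + π ≤ n ∧ (T d m r)^[j + π] x = (T d m r)^[j] x) ∧
    (∀ x ∈ S d C, (∀ j π : ℕ, 1 ≤ π → (T d m r)^[j + π] x ≠ (T d m r)^[j] x) →
      ∀ s : ℕ, ∃ ε : ℝ, 0 < ε ∧ ∃ X : ℕ, ∀ n ℓ : ℕ, X ≤ n → (ℓ : ℝ) ≤ ε * n →
        ¬ Splits (fun i => (T d m r)^[i] x % d) ℓ s n) := by
  have hBr : ∃ B ∈ C, Pool.Agent.J6H87.SX.Br d e B := by
    rcases hbr with h | h
    · exact Pool.Agent.J6H87.SX.Br_of_Lam D hC h
    · exact h
  have hden0 : ∀ x n, (0 : ℝ) < Den d m r x n := fun x n => by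
    have h : 0 < Den d m r x n := Rat.den_pos _
    exact_mod_cast h
  have hgrow : ∃ κ lam : ℝ, 0 < κ ∧ 1 < lam ∧ ∀ x ∈ S d C, ∀ n : ℕ,
      κ * lam ^ n ≤ Den d m r x n := by
    obtain ⟨c0, C0, hc0, hE⟩ := Pool.Agent.J6H87.SX.exp_class D hC hBr
    refine ⟨Real.exp (-C0), Real.exp c0, Real.exp_pos _, Real.one_lt_exp_iff.2 hc0, ?_⟩
    intro x hx n
    have h1 := hE x hx 0 n
    have hw : Pool.Agent.J6H87.SX.wd d (fun i => m (i % d)) (fun i => r (i % d)) x =
        fun n => (T d m r)^[n] x % d := by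
      funext n
      unfold Pool.Agent.J6H87.SX.wd
      rw [Pool.Agent.J6H87.SX.TG_eq]
    rw [hw, dn_eq] at h1
    rw [← Real.exp_nat_mul, ← Real.exp_add, ← Real.le_log_iff_exp_le (hden0 x n)]
    linarith
  have key : ∀ (s : ℕ) (η : ℝ), 0 < η → ∃ ε : ℝ, 0 < ε ∧ ∃ X : ℕ, ∀ x ∈ S d C, ∀ n ℓ : ℕ, X ≤ n →
      |(x : ℝ)| ^ (1 + η) ≤ Den d m r x n → (ℓ : ℝ) ≤ ε * n →
      Splits (fun i => (T d m r)^[i] x % d) ℓ s n →
      ∃ j π, 1 ≤ π ∧ π ≤ ℓ ∧ j + π ≤ n ∧ (T d m r)^[j + π] x = (T d m r)^[j] x := by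
    intro s η hη
    obtain ⟨ε, hε, X, h⟩ := Pool.Agent.J6H87.SX.simple_words_class D hC hBr s hη
    refine ⟨ε, hε, X, fun x hx n ℓ h1 h2 h3 h4 => ?_⟩
    refine h x n ℓ hx h1 ?_ h3 h4
    rw [dn_eq]
    by_cases hx0 : x = 0
    · rw [hx0, Int.cast_zero, abs_zero, Real.log_zero, mul_zero]
      exact Real.log_natCast_nonneg _
    · have hx1 : 0 < |(x : ℝ)| := abs_pos.2 (by exact_mod_cast hx0)
      rw [← Real.log_rpow hx1]
      exact Real.log_le_log (Real.rpow_pos_of_pos hx1 _) h2
  refine ⟨hgrow, key, ?_⟩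
  intro x hx hnc s
  obtain ⟨ε, hε, X, h⟩ := key s 1 one_pos
  obtain ⟨κ, lam, hκ, hlam, hg⟩ := hgrow
  obtain ⟨X', hX'⟩ := pow_unbounded_of_one_lt (|(x : ℝ)| ^ ((1 : ℝ) + 1) / κ) hlam
  refine ⟨ε, hε, max X X', fun n ℓ hn hℓ hS => ?_⟩
  have h1 : |(x : ℝ)| ^ ((1 : ℝ) + 1) ≤ Den d m r x n := by
    rw [div_lt_iff₀ hκ] at hX'
    have h2 : lam ^ X' ≤ lam ^ n := pow_le_pow_right₀ hlam.le ((le_max_right _ _).trans hn)
    have h3 := mul_le_mul_of_nonneg_left h2 hκ.le
    have h4 := hg x hx n
    linarith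
  obtain ⟨j, π, h3, -, -, h4⟩ := h x hx n ℓ ((le_max_left _ _).trans hn) h1 hℓ hS
  exact hnc j π h3 h4

end Pool.Agent.Results.MP_39d40e_nt.SimpleResidueWords
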