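import Pool.Agent.J6H80.NP.Col

/-!
# Leigh's law at ALL integers near powers, orbits and other sequences of a typical number

Let `C` be a finite closed communicating class of Leigh's chain of a generalised Collatz map `T` modulo `d`, with the number
`Λ = Λ_C`, and let `P` be a polynomial of degree `D ≥ 1` with integer coefficients (`D ≥ 2` or `Λ > 1 / d`). Let `f_k`,
`k = 0, 1, 2, …`, be positive functions on `(a, ∞)`, `a ≥ 0`, such that `f_k(t) / t` is nondecreasing, and such that the sequence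
`f_k(t)` has exponent of convergence at most `τ` for each `t > a`: for instance `f_k(t) = v_k t`, `f_k(t) = t ^ (v_k)` or the orbits
`f_k(t) = g (g (⋯ g (t)))` of a map `g`.

For all `α > a` outside a set of Hausdorff dimension less than one, for all large `k` the law of the first `log_d |x|` steps
(`|T^j (P x)|` is `Λ^j |P x|` up to a factor `|x| ^ (± ε)`) holds for EVERY integer `x` with `||x| - f_k(α)| ≤ c f_k(α) ^ θ` and
`P x ∈ S_C`, and the trajectory of `P x` falls below `|P x| ^ (1 + log_d Λ / D + ε)` if `Λ < 1` and rises above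
`|P x| ^ (1 + log_d Λ / D - ε)` if `Λ > 1`. For almost all `α` this holds for all polynomials `P` at once. For the `3x + 1` map:
for almost all `α > 1`, all `ε > 0`, some `θ > 0` and all large `k`, the trajectory of EVERY integer within `α ^ (θ k)` of
`α ^ k` has its first `log_2 |x|` terms equal to `(√3 / 2)^j |x|`, up to `|x| ^ (± ε)`, and falls below
`|x| ^ (log 3 / log 4 + ε)`.

Method. The power saving in the starting file `PolynomialTrajectories`, on all dyadic scales, and the covering argument for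
starshaped functions.
-/

set_option autoImplicit false

namespace Pool.Agent.Results.MP_39d40e_nt.TypicalTrajectories

open Polynomial MeasureTheory
open Pool.Agent.H319R2.Leigh

/-- the functions `f k` are positive on `(a, ∞)`, `a ≥ 0`, and `f k x / x` is nondecreasing there -/
def Starshaped (a : ℝ) (f : ℕ → ℝ → ℝ) : Prop :=
  0 ≤ a ∧ ∀ k : ℕ, ∀ x y : ℝ, a < x → x ≤ y → 0 < f k x ∧ f k x / x ≤ f k y / y

/-- for each `x > a` the exponent of convergence of the sequence `f k x` is at most `τ` -/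
def ExpLe (a : ℝ) (f : ℕ → ℝ → ℝ) (τ : ℝ) : Prop :=
  ∀ x : ℝ, a < x → ∀ t : ℝ, τ < t → Summable (fun k : ℕ => (f k x) ^ (-t))

/-- For `d ^ j ≤ |x|` the term `T^j (P x)` of the trajectory of `P x` has absolute value `L ^ j |P x|`, up to a factor
between `|x| ^ (-ε)` and `|x| ^ ε`. -/
def Follows (d : ℕ) (m r : ℤ → ℤ) (L ε : ℝ) (P : ℤ[X]) (x : ℤ) : Prop :=
  ∀ j : ℕ, (d : ℝ) ^ j ≤ |(x : ℝ)| →
    |(x : ℝ)| ^ (-ε) * L ^ j * |((P.eval x : ℤ) : ℝ)| ≤ |(((T d m r)^[j] (P.eval x) : ℤ) : ℝ)| ∧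
    |(((T d m r)^[j] (P.eval x) : ℤ) : ℝ)| ≤ |(x : ℝ)| ^ ε * L ^ j * |((P.eval x : ℤ) : ℝ)|

/-- The law up to `ε` for the trajectory of `P x`, with the number `L`: `Follows`; if `L < 1`, some term has absolute value at
most `|P x| ^ (1 + log_d L / deg P + ε)`; if `L > 1`, some term has absolute value at least
`|P x| ^ (1 + log_d L / deg P - ε)`. -/
def Law (d : ℕ) (m r : ℤ → ℤ) (L ε : ℝ) (P : ℤ[X]) (x : ℤ) : Prop :=
  Follows d m r L ε P x ∧
  (L < 1 → ∃ j : ℕ, |(((T d m r)^[j] (P.eval x) : ℤ) : ℝ)| ≤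
    |((P.eval x : ℤ) : ℝ)| ^ (1 + Real.log L / Real.log d / P.natDegree + ε)) ∧
  (1 < L → ∃ j : ℕ, |((P.eval x : ℤ) : ℝ)| ^ (1 + Real.log L / Real.log d / P.natDegree - ε) ≤
    |(((T d m r)^[j] (P.eval x) : ℤ) : ℝ)|)

/-- the `3x + 1` map -/
def Collatz (x : ℤ) : ℤ := if x % 2 = 0 then x / 2 else (3 * x + 1) / 2

/-- **Main theorem.** Let `T` be a generalised Collatz map modulo `d` and `C` a finite closed communicating class of its Leigh
chain, with the number `Λ = Λ_C`.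
1. Let `P` be a polynomial of degree at least `1` with integer coefficients, of degree at least `2` if `Λ ≤ 1 / d`, and `ε > 0`.
There is `δ > 0` such that for all starshaped functions `f_k` on `(a, ∞)` of exponent of convergence at most `τ ≥ 0` and all
`θ < 1` there is a set `E` of Hausdorff dimension at most `(1 - δ + τ) / (1 - θ)` such that for all `α > a` outside `E`, all `c`
and all large `k`, for EVERY integer `x` with `||x| - f_k(α)| ≤ c f_k(α) ^ θ`: `P x ≠ 0`, and if `P x ∈ S_C`, then the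
trajectory of `P x` obeys the law up to `ε`.
2. If `f_k` are starshaped functions on `(a, ∞)` of exponent of convergence `0`, then for almost all `α > a`, ALL polynomials
`P` as in 1 and ALL `ε > 0` there is `θ > 0` with this property.
3. For the `3x + 1` map: if `f_k` are starshaped functions on `(a, ∞)` of exponent of convergence `0`, then for almost all
`α > a`, ALL nonconstant polynomials `P` with integer coefficients and ALL `ε > 0` there is `θ > 0` such that for all `c`, all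
large `k` and EVERY integer `x` with `||x| - f_k(α)| ≤ c f_k(α) ^ θ`: for all `j` with `2 ^ j ≤ |x|` the `j`th term of the
trajectory of `P x` has absolute value `(√3 / 2) ^ j |P x|` up to a factor between `|x| ^ (-ε)` and `|x| ^ ε`, and some term has
absolute value at most `|P x| ^ (1 - (1 - log 3 / log 4) / deg P + ε)`.
4. The functions `v_k x`, `v_k > 0`, are starshaped on `(0, ∞)`, of exponent `τ` if `v` has exponent of convergence at most
`τ`; the functions `x ^ (v_k)`, `v_k ≥ 1`, are starshaped on `(1, ∞)`, of exponent `0` if the sums of `exp (-t v_k)` converge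
for `t > 0`; and the iterates of a map `g` with `g(x) > x` for `x > a` and `g(x) / x` nondecreasing are starshaped on
`(a, ∞)`, of exponent `0`. -/
theorem result :
    (∀ (d : ℕ) (m r b : ℤ → ℤ) (e : ℤ → ℕ), Data d m r b e → ∀ (C : Finset (ℤ × ℕ)) (ρ : ℤ × ℕ → ℝ), Class d m r e C ρ →
      ∀ P : ℤ[X], 1 ≤ P.natDegree → (2 ≤ P.natDegree ∨ 1 / (d : ℝ) < Lam d m C ρ) → ∀ ε : ℝ, 0 < ε →
      ∃ δ : ℝ, 0 < δ ∧ ∀ (a : ℝ) (f : ℕ → ℝ → ℝ) (τ θ : ℝ), Starshaped a f → 0 ≤ τ → ExpLe a f τ → θ < 1 →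
        ∃ E : Set ℝ, dimH E ≤ ENNReal.ofReal ((1 - δ + τ) / (1 - θ)) ∧ ∀ α : ℝ, a < α → α ∉ E → ∀ c : ℝ,
          ∃ k₀ : ℕ, ∀ k : ℕ, k₀ ≤ k → ∀ x : ℤ, |(|x| : ℝ) - f k α| ≤ c * (f k α) ^ θ →
            P.eval x ≠ 0 ∧ (P.eval x ∈ S d C → Law d m r (Lam d m C ρ) ε P x)) ∧
    (∀ (d : ℕ) (m r b : ℤ → ℤ) (e : ℤ → ℕ), Data d m r b e → ∀ (C : Finset (ℤ × ℕ)) (ρ : ℤ × ℕ → ℝ), Class d m r e C ρ →
      ∀ (a : ℝ) (f : ℕ → ℝ → ℝ), Starshaped a f → ExpLe a f 0 →
      ∃ N : Set ℝ, volume N = 0 ∧ ∀ α : ℝ, a < α → α ∉ N → ∀ P : ℤ[X], 1 ≤ P.natDegree →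
        (2 ≤ P.natDegree ∨ 1 / (d : ℝ) < Lam d m C ρ) → ∀ ε : ℝ, 0 < ε → ∃ θ : ℝ, 0 < θ ∧ ∀ c : ℝ,
          ∃ k₀ : ℕ, ∀ k : ℕ, k₀ ≤ k → ∀ x : ℤ, |(|x| : ℝ) - f k α| ≤ c * (f k α) ^ θ →
            P.eval x ≠ 0 ∧ (P.eval x ∈ S d C → Law d m r (Lam d m C ρ) ε P x)) ∧
    (∀ (a : ℝ) (f : ℕ → ℝ → ℝ), Starshaped a f → ExpLe a f 0 →
      ∃ N : Set ℝ, volume N = 0 ∧ ∀ α : ℝ, a < α → α ∉ N → ∀ P : ℤ[X], 1 ≤ P.natDegree → ∀ ε : ℝ, 0 < ε →
        ∃ θ : ℝ, 0 < θ ∧ ∀ c : ℝ, ∃ k₀ : ℕ, ∀ k : ℕ, k₀ ≤ k → ∀ x : ℤ, |(|x| : ℝ) - f k α| ≤ c * (f k α) ^ θ →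
          (∀ j : ℕ, (2 : ℝ) ^ j ≤ |(x : ℝ)| →
            |(x : ℝ)| ^ (-ε) * (Real.sqrt 3 / 2) ^ j * |((P.eval x : ℤ) : ℝ)| ≤ |((Collatz^[j] (P.eval x) : ℤ) : ℝ)| ∧
            |((Collatz^[j] (P.eval x) : ℤ) : ℝ)| ≤ |(x : ℝ)| ^ ε * (Real.sqrt 3 / 2) ^ j * |((P.eval x : ℤ) : ℝ)|) ∧
          ∃ j : ℕ, |((Collatz^[j] (P.eval x) : ℤ) : ℝ)| ≤
            |((P.eval x : ℤ) : ℝ)| ^ (1 - (1 - Real.log 3 / Real.log 4) / P.natDegree + ε)) ∧
    (∀ (v : ℕ → ℝ) (τ : ℝ), (∀ n, 0 < v n) → (∀ t : ℝ, τ < t → Summable (fun n : ℕ => (v n) ^ (-t))) →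
      Starshaped 0 (fun n x => v n * x) ∧ ExpLe 0 (fun n x => v n * x) τ) ∧
    (∀ v : ℕ → ℝ, (∀ n, 1 ≤ v n) → (∀ t : ℝ, 0 < t → Summable fun n : ℕ => Real.exp (-(t * v n))) →
      Starshaped 1 (fun n x => x ^ (v n)) ∧ ExpLe 1 (fun n x => x ^ (v n)) 0) ∧
    (∀ (a : ℝ) (g : ℝ → ℝ), 0 ≤ a → (∀ x y : ℝ, a < x → x ≤ y → g x / x ≤ g y / y) → (∀ x : ℝ, a < x → x < g x) →
      Starshaped a (fun n x => g^[n] x) ∧ ExpLe a (fun n x => g^[n] x) 0) := by
  refine ⟨fun d m r b e D C ρ hC P hP hne ε hε => ?_, fun d m r b e D C ρ hC a f hf hv => ?_, fun a f hf hv => ?_,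
    Pool.Agent.R482.ST.ex_mul, Pool.Agent.R482.ST.ex_pow, Pool.Agent.R482.ST.ex_orbit⟩
  · obtain ⟨δ, hδ, -, h⟩ := Pool.Agent.J6H80.NP.win_law d m r b e D C ρ hC P hP hne ε hε
    exact ⟨δ, hδ, fun a f τ θ hf hτ hv hθ => h a f τ θ hf hτ hv hθ⟩
  · exact Pool.Agent.J6H80.NP.ae_law d m r b e D C ρ hC a f hf hv
  · obtain ⟨N, hN, h⟩ := Pool.Agent.J6H80.NP.ae_law 2 _ _ _ _ Pool.Agent.J6H80.NP.cdata _ _
      Pool.Agent.J6H80.NP.cclass a f hf hv
    have hlam := Pool.Agent.J6H80.NP.clam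
    have h3 : Real.sqrt 3 < 2 := by
      rw [Real.sqrt_lt' (by norm_num)]
      norm_num
    have h3' : 1 < Real.sqrt 3 := by
      rw [Real.lt_sqrt (by norm_num)]
      norm_num
    refine ⟨N, hN, fun α hα hαN P hP ε hε => ?_⟩
    obtain ⟨θ, hθ, h1⟩ := h α hα hαN P hP (Or.inr (by rw [hlam]; push_cast; linarith)) ε hε
    refine ⟨θ, hθ, fun c => ?_⟩
    obtain ⟨k₀, hk⟩ := h1 c
    refine ⟨k₀, fun k hk0 x hx => ?_⟩
    obtain ⟨-, h2⟩ := hk k hk0 x hx
    obtain ⟨g1, g2, -⟩ := h2 (Pool.Agent.J6H80.NP.cS _)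
    rw [hlam] at g1 g2
    have hcol : Pool.Agent.J6H80.NP.Col = Collatz := rfl
    unfold Pool.Agent.J6H80.NP.Fol at g1
    rw [Pool.Agent.J6H80.NP.cT, hcol] at g1 g2
    refine ⟨fun j hj => g1 j (by exact_mod_cast hj), ?_⟩
    obtain ⟨j, hj⟩ := g2 (by linarith)
    refine ⟨j, hj.trans (le_of_eq ?_)⟩
    congr 1
    have e1 : Real.log (Real.sqrt 3 / 2) = Real.log 3 / 2 - Real.log 2 := by
      rw [Real.log_div (by positivity) (by norm_num), Real.log_sqrt (by norm_num)]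
    have e2 : Real.log 4 = 2 * Real.log 2 := by
      rw [show (4 : ℝ) = 2 ^ 2 by norm_num, Real.log_pow]
      push_cast
      ring
    have e3 : Real.log 2 ≠ 0 := (Real.log_pos (by norm_num)).ne'
    have e4 : (P.natDegree : ℝ) ≠ 0 := by
      have : 0 < P.natDegree := hP
      positivity
    rw [e1, e2]
    push_cast
    field_simp
    ring

end Pool.Agent.Results.MP_39d40e_nt.TypicalTrajectories
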